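import Pool.Agent.H38.SE.TarA
import Pool.Agent.H89.CA.QE

/-! # MP_eaeaf5_lc, AA: hereditarily finite sets -/

set_option linter.unusedVariables false

open Ordinal Order Set
open scoped ZFSet

namespace SE.H58

open SF CAA Pool.Agent.H69.CA

theorem fin_ind {P : V → Prop} (x : V) (hx : (x : Set V).Finite) (h0 : P ∅)
    (hs : ∀ a ∈ x, ∀ y : V, y ⊆ x → P y → P (insert a y)) : P x := by
  have key : ∀ F : Set V, F.Finite → F ⊆ (x : Set V) →
      ∃ z : V, (∀ a, a ∈ z ↔ a ∈ F) ∧ P z := by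
    intro F hF
    induction F, hF using Set.Finite.induction_on with
    | empty => exact fun _ => ⟨∅, fun a => by simp, h0⟩
    | @insert b F _ _ ih =>
      intro hsub
      obtain ⟨z, hz, hP⟩ := ih fun a ha => hsub (Set.mem_insert_of_mem _ ha)
      refine ⟨insert b z, fun c => ?_, hs b (hsub (Set.mem_insert _ _)) z
        (fun c hc => hsub (Or.inr ((hz c).1 hc))) hP⟩
      rw [ZFSet.mem_insert_iff, Set.mem_insert_iff, hz]
  obtain ⟨z, hz, hP⟩ := key _ hx subset_rfl
  have h : z = x := ZFSet.ext fun a => hz a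
  rwa [← h]

theorem mem_hf {x : V} : x ∈ hf ↔ x.rank < ω := ZFSet.mem_vonNeumann

theorem hf_tr : hf.IsTransitive := ZFSet.isTransitive_vonNeumann _

theorem hf_empty : (∅ : V) ∈ hf := by
  rw [mem_hf, ZFSet.rank_empty]
  exact Ordinal.omega0_pos

theorem hf_insert {x y : V} (hx : x ∈ hf) (hy : y ∈ hf) : insert x y ∈ hf := by
  rw [mem_hf] at hx hy ⊢
  rw [ZFSet.rank_insert]
  exact max_lt (Ordinal.isSuccLimit_omega0.succ_lt hx) hy

theorem hf_upair {x y : V} (hx : x ∈ hf) (hy : y ∈ hf) : ({x, y} : V) ∈ hf := by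
  rw [mem_hf] at hx hy ⊢
  rw [ZFSet.rank_pair]
  exact max_lt (Ordinal.isSuccLimit_omega0.succ_lt hx) (Ordinal.isSuccLimit_omega0.succ_lt hy)

theorem hf_pair {x y : V} (hx : x ∈ hf) (hy : y ∈ hf) : ZFSet.pair x y ∈ hf := by
  unfold ZFSet.pair
  refine hf_upair ?_ (hf_upair hx hy)
  have h := hf_upair hx hx
  rwa [ZFSet.pair_eq_singleton] at h

theorem hf_nS (n : ℕ) : nS n ∈ hf := by
  rw [mem_hf, Ordinal.rank_toZFSet]
  exact Ordinal.natCast_lt_omega0 n

theorem vn_fin (n : ℕ) : ((V_ (n : Ordinal.{0}) : V) : Set V).Finite := by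
  induction n with
  | zero =>
    rw [Nat.cast_zero, ZFSet.vonNeumann_zero]
    have h : ((∅ : V) : Set V) = ∅ := by
      ext a
      simp
    rw [h]
    exact Set.finite_empty
  | succ n ih =>
    rw [Nat.cast_succ, ZFSet.vonNeumann_add_one]
    refine Set.Finite.of_finite_image (f := fun z : V => (z : Set V)) ?_ ?_
    · refine (ih.finite_subsets).subset ?_
      rintro _ ⟨z, hz, rfl⟩
      intro a ha
      exact ZFSet.mem_powerset.1 hz ha
    · intro a _ b _ h
      exact ZFSet.ext fun c => Set.ext_iff.1 h c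

theorem hf_fin {x : V} (hx : x ∈ hf) : (x : Set V).Finite := by
  obtain ⟨n, hn⟩ := Ordinal.lt_omega0.1 (mem_hf.1 hx)
  refine (vn_fin n).subset fun a ha => ?_
  have h := ZFSet.subset_vonNeumann_self x
  rw [hn] at h
  exact h ha

theorem fin_hf {x : V} (h : x ⊆ hf) (hx : (x : Set V).Finite) : x ∈ hf :=
  fin_ind (P := fun y => y ∈ hf) x hx hf_empty fun a ha y _ hy => hf_insert (h ha) hy

theorem hf_inf (F : Set V) (hF : F.Finite) : ∃ j ∈ hf, j ∉ F := by
  by_contra hcon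
  push Not at hcon
  exact Set.infinite_of_injective_forall_mem (f := nS) (fun a b h => nS_inj.1 h)
    (fun n => hcon _ (hf_nS n)) hF

/-! ### a definable enumeration -/

/-- the enumerations of the stages -/
noncomputable def ee : ℕ → ℕ → V
  | 0, _ => ∅
  | n + 1, k => if (en k).1 = 0 then ee n (en k).2
      else insert (ee n (en (en k).2).1) (ee n (en (en k).2).2)

/-- the first enumeration as a set -/
noncomputable def G0 : V := resS om fun _ => ∅

/-- the step -/
noncomputable def stp (f : V) : V := resS om fun k => sel (fst (Ev (nn k)) = ∅)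
  (app f (snd (Ev (nn k))))
  (insert (app f (fst (Ev (nn (snd (Ev (nn k)))))))
    (app f (snd (Ev (nn (snd (Ev (nn k))))))))

/-- the enumerations as sets -/
noncomputable def hS : ℕ → V
  | 0 => G0
  | n + 1 => stp (hS n)

theorem app_hS (n k : ℕ) : app (hS n) (nS k) = ee n k := by
  induction n generalizing k with
  | zero =>
    show app G0 (nS k) = _
    unfold G0
    rw [app_resS (nS_mem_om k)]
    rfl
  | succ n ih =>
    show app (stp (hS n)) (nS k) = _
    unfold stp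
    rw [app_resS (nS_mem_om k), nn_nS, Ev_eq, fst_pair, snd_pair, nn_nS, Ev_eq, fst_pair, snd_pair,
      ih, ih, ih]
    show _ = if (en k).1 = 0 then ee n (en k).2
      else insert (ee n (en (en k).2).1) (ee n (en (en k).2).2)
    by_cases h : (en k).1 = 0
    · rw [if_pos h, h, sel_pos nS_zero]
    · rw [if_neg h]
      obtain ⟨b, hb⟩ := Nat.exists_eq_succ_of_ne_zero h
      rw [hb, sel_neg (nS_ne_empty b)]

theorem tm_stp : Tm ZFm (fun _ u => stp (u 0)) := by
  have he : Tm ZFm (fun _ (u : ℕ → V) => Ev (nn (u 0))) := tm_Ev (Tm.var 0)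
  have he2 : Tm ZFm (fun _ (u : ℕ → V) => Ev (nn (snd (Ev (nn (u 0)))))) := tm_Ev (Tm.snd he)
  exact Tm.resS (g := fun _ u => sel (fst (Ev (nn (u 0))) = ∅) (app (u 1) (snd (Ev (nn (u 0)))))
      (insert (app (u 1) (fst (Ev (nn (snd (Ev (nn (u 0))))))))
        (app (u 1) (snd (Ev (nn (snd (Ev (nn (u 0))))))))))
    Tm.om (Tm.sel (Dfb.eq (Tm.fst he) Tm.empty) (Tm.app (Tm.var 1) (Tm.snd he))
      (Tm.ins (Tm.app (Tm.var 1) (Tm.fst he2)) (Tm.app (Tm.var 1) (Tm.snd he2))))

theorem tm_G0 : Tm ZFm (fun _ _ => G0) :=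
  Tm.resS (g := fun _ u => ∅) Tm.om Tm.empty

theorem it_hS (M : V → Prop) (v : ℕ → V) (n : ℕ) :
    it (fun _ u => stp (u 0)) (fun _ _ => G0) M v n = hS n := by
  induction n with
  | zero => rfl
  | succ n ih =>
    show stp (it (fun _ u => stp (u 0)) (fun _ _ => G0) M v n) = _
    rw [ih]
    rfl

/-- the enumeration of the hereditarily finite sets -/
noncomputable def eN (k : V) : V := app (hS (nn (fst (Ev (nn k))))) (snd (Ev (nn k)))

theorem eN_nS (k : ℕ) : eN (nS k) = ee (en k).1 (en k).2 := by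
  unfold eN
  rw [nn_nS, Ev_eq, fst_pair, snd_pair, nn_nS, app_hS]

theorem tm_eN : Tm ZFm fun _ u => eN (u 0) := by
  have he : Tm ZFm (fun _ (u : ℕ → V) => Ev (nn (u 0))) := tm_Ev (Tm.var 0)
  have h1 : Tm ZFm (fun _ (u : ℕ → V) => hS (nn (fst (Ev (nn (u 0)))))) :=
    (Tm.it tm_stp tm_G0 (Tm.fst he)).congr fun M k v hv => it_hS M v _
  exact Tm.app h1 (Tm.snd he)

attribute [irreducible] eN

theorem mem_im {x : V} : x ∈ imS om (fun n => eN n) ↔ ∃ n k, ee n k = x := by
  rw [mem_imS]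
  constructor
  · rintro ⟨a, ha, rfl⟩
    obtain ⟨m, rfl⟩ := mem_om.1 ha
    exact ⟨_, _, (eN_nS m).symm⟩
  · rintro ⟨n, k, rfl⟩
    obtain ⟨m, hm⟩ := en_surj' n k
    exact ⟨nS m, nS_mem_om m, by rw [eN_nS, hm]⟩

theorem ee_hf (n k : ℕ) : ee n k ∈ hf := by
  induction n generalizing k with
  | zero => exact hf_empty
  | succ n ih =>
    show (if (en k).1 = 0 then ee n (en k).2
      else insert (ee n (en (en k).2).1) (ee n (en (en k).2).2)) ∈ hf
    split_ifs
    · exact ih _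
    · exact hf_insert (ih _) (ih _)

theorem ee_up {n k m : ℕ} (h : n ≤ m) : ∃ j, ee m j = ee n k := by
  induction h with
  | refl => exact ⟨k, rfl⟩
  | @step m _ ih =>
    obtain ⟨j, hj⟩ := ih
    obtain ⟨i, hi⟩ := en_surj' 0 j
    refine ⟨i, ?_⟩
    show (if (en i).1 = 0 then ee m (en i).2
      else insert (ee m (en (en i).2).1) (ee m (en (en i).2).2)) = _
    rw [hi, if_pos rfl, hj]

theorem im_insert {x y : V} (hx : x ∈ imS om (fun n => eN n)) (hy : y ∈ imS om (fun n => eN n)) :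
    insert x y ∈ imS om (fun n => eN n) := by
  obtain ⟨n, k, rfl⟩ := mem_im.1 hx
  obtain ⟨m, l, rfl⟩ := mem_im.1 hy
  obtain ⟨i, hi⟩ := ee_up (k := k) (le_max_left n m)
  obtain ⟨j, hj⟩ := ee_up (k := l) (le_max_right n m)
  obtain ⟨a, ha⟩ := en_surj' i j
  obtain ⟨b, hb⟩ := en_surj' 1 a
  refine mem_im.2 ⟨max n m + 1, b, ?_⟩
  show (if (en b).1 = 0 then ee (max n m) (en b).2
    else insert (ee (max n m) (en (en b).2).1) (ee (max n m) (en (en b).2).2)) = _
  rw [hb, if_neg (by norm_num), ha, hi, hj]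

theorem hf_sub (x : V) : x ∈ hf → x ∈ imS om (fun n => eN n) := by
  induction x using ZFSet.inductionOn with
  | _ x ih =>
    intro hx
    refine fin_ind (P := fun y => y ∈ imS om (fun n => eN n)) x (hf_fin hx)
      (mem_im.2 ⟨0, 0, rfl⟩) fun a ha y _ hy => im_insert (ih a ha (hf_tr.mem_trans ha hx)) hy

theorem hf_eq : imS om (fun n => eN n) = hf := by
  ext x
  constructor
  · intro hx
    obtain ⟨n, k, rfl⟩ := mem_im.1 hx
    exact ee_hf n k
  · exact hf_sub x

theorem tm_hf : Tm ZFm (fun _ _ => hf) :=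
  (Tm.image (g := fun _ u => eN (u 0)) Tm.om tm_eN).congr fun M k v hv => hf_eq

theorem ctbl_hf {M : V → Prop} (k : ZFm M) : Ctbl M hf := by
  right
  have h1 : M (resS om fun n => eN n) := (Tm.resS (g := fun _ u => eN (u 0)) Tm.om tm_eN).1 M k
    (fun _ => om) fun _ => k.inf
  refine ⟨_, h1, isFunc_resS _ _ _ fun x hx => ?_, fun b hb => ?_⟩
  · rw [← hf_eq]
    exact mem_imS.2 ⟨x, hx, rfl⟩
  · rw [← hf_eq] at hb
    obtain ⟨a, ha, rfl⟩ := mem_imS.1 hb
    exact ⟨a, ha, pair_mem_resS.2 ⟨ha, rfl⟩⟩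

end SE.H58

namespace SE

open SF H58

/-- AA -/
theorem pf_AA : T_AA := by
  refine ⟨hf_tr, hf_nS, ?_, fun x hx y hy => hf_pair hx hy, fun x h hx => fin_hf h hx,
    fun x hx => hf_fin hx, hf_inf, tm_hf, fun M k => ctbl_hf k⟩
  intro x hx
  obtain ⟨n, rfl⟩ := mem_om.1 hx
  exact hf_nS n

end SE
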