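import Pool.Agent.H58.SE.AA

/-! # MP_eaeaf5_lc, AB: finite subsets -/

set_option linter.unusedVariables false

open Ordinal Order Set
open scoped ZFSet

namespace SE.H58

open SF CAA Pool.Agent.H69.CA Pool.Agent.H89.CA.QE

theorem mem_Fs {x y : V} : y ∈ Fs x ↔ y ⊆ x ∧ (y : Set V).Finite := by
  unfold Fs
  rw [ZFSet.mem_sep, ZFSet.mem_powerset]

/-- one step -/
noncomputable def fsS (x y : V) : V := imS (ZFSet.prod x y) fun z => insert (fst z) (snd z)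

theorem mem_fsS {x y z : V} : z ∈ fsS x y ↔ ∃ a ∈ x, ∃ b ∈ y, z = insert a b := by
  unfold fsS
  rw [mem_imS]
  constructor
  · rintro ⟨q, hq, rfl⟩
    obtain ⟨a, ha, b, hb, rfl⟩ := ZFSet.mem_prod.1 hq
    exact ⟨a, ha, b, hb, by rw [fst_pair, snd_pair]⟩
  · rintro ⟨a, ha, b, hb, rfl⟩
    exact ⟨ZFSet.pair a b, ZFSet.pair_mem_prod.2 ⟨ha, hb⟩, by rw [fst_pair, snd_pair]⟩

theorem tm_fsS : Tm ZFm (fun _ u => fsS (u 1) (u 0)) :=
  Tm.image (g := fun _ u => insert (fst (u 0)) (snd (u 0))) (Tm.prod (Tm.var 1) (Tm.var 0))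
    (Tm.ins (Tm.fst (Tm.var 0)) (Tm.snd (Tm.var 0)))

theorem it_fs (M : V → Prop) (v : ℕ → V) (n : ℕ) (y : V)
    (hy : y ∈ it (fun _ u => fsS (u 1) (u 0)) (fun _ _ => {∅}) M v n) :
    y ⊆ v 0 ∧ (y : Set V).Finite := by
  induction n generalizing y with
  | zero =>
    have h : y ∈ ({∅} : V) := hy
    rw [ZFSet.mem_singleton] at h
    subst h
    refine ⟨fun a ha => absurd ha (ZFSet.notMem_empty a), ?_⟩
    have h : ((∅ : V) : Set V) = ∅ := by
      ext a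
      simp
    rw [h]
    exact Set.finite_empty
  | succ n ih =>
    obtain ⟨a, ha, b, hb, rfl⟩ := mem_fsS.1 (show y ∈ fsS (v 0) _ from hy)
    obtain ⟨h1, h2⟩ := ih b hb
    refine ⟨fun c hc => ?_, ?_⟩
    · rcases ZFSet.mem_insert_iff.1 hc with rfl | hc
      · exact ha
      · exact h1 hc
    · refine (h2.insert a).subset fun c hc => ?_
      rcases ZFSet.mem_insert_iff.1 hc with rfl | hc
      · exact Or.inl rfl
      · exact Or.inr hc

theorem itU_fs (M : V → Prop) (v : ℕ → V) :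
    itU (fun _ u => fsS (u 1) (u 0)) (fun _ _ => {∅}) M v = Fs (v 0) := by
  ext y
  rw [mem_itU, mem_Fs]
  constructor
  · rintro ⟨n, hn⟩
    exact it_fs M v n y hn
  · rintro ⟨h1, h2⟩
    refine fin_ind (P := fun y => ∃ n, y ∈ it (fun _ u => fsS (u 1) (u 0)) (fun _ _ => {∅}) M v n)
      y h2 ⟨0, ?_⟩ ?_
    · show (∅ : V) ∈ ({∅} : V)
      exact ZFSet.mem_singleton.2 rfl
    · rintro a ha z hz ⟨n, hn⟩
      exact ⟨n + 1, show _ ∈ fsS (v 0) _ from mem_fsS.2 ⟨a, h1 ha, z, hn, rfl⟩⟩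

theorem tm_Fs : Tm ZFm (fun _ v => Fs (v 0)) :=
  (Tm.itU tm_fsS (Tm.sing Tm.empty)).congr fun M k v hv => itU_fs M v

theorem ctbl_sing {M : V → Prop} (k : ZFm M) {a : V} (ha : M a) : Ctbl M {a} := by
  right
  have h1 : M (resS om fun _ => a) := (Tm.resS (g := fun _ u => u 1) Tm.om (Tm.var 1)).1 M k
    (fun _ => a) fun _ => ha
  refine ⟨_, h1, isFunc_resS _ _ _ fun x hx => ZFSet.mem_singleton.2 rfl, fun b hb => ?_⟩
  rw [ZFSet.mem_singleton] at hb
  subst hb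
  exact ⟨nS 0, nS_mem_om 0, pair_mem_resS.2 ⟨nS_mem_om 0, rfl⟩⟩

theorem ctbl_union {M : V → Prop} (k : ZFm M) {x y : V} (hx : Ctbl M x) (hy : Ctbl M y) :
    Ctbl M (x ∪ y) := by
  obtain ⟨hC, -⟩ := C0_mem k
  rw [ctbl_iff k] at hx hy ⊢
  exact (pf_DF M k C0 hC gd_C0).2.2.2.2.1 x y hx hy

theorem insert_eqU (a y : V) : insert a y = {a} ∪ y := by
  ext z
  rw [ZFSet.mem_insert_iff, ZFSet.mem_union, ZFSet.mem_singleton]

theorem ctbl_mem {M : V → Prop} (k : ZFm M) {x : V} (h : Ctbl M x) : M x := by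
  rcases h with rfl | ⟨f, hf, ho⟩
  · exact ZFm.mempty k
  · have h1 : rg f = x := by
      ext b
      rw [mem_rg]
      constructor
      · rintro ⟨a, hab⟩
        exact (ZFSet.pair_mem_prod.1 (ho.1.1 hab)).2
      · intro hb
        obtain ⟨a, -, hab⟩ := ho.2 b hb
        exact ⟨a, hab⟩
    rw [← h1]
    exact (Tm.rg (Tm.var 0)).1 M k (fun _ => f) fun _ => hf

end SE.H58

namespace SE

open SF CAA H58 Pool.Agent.H89.CA.QE

/-- AB -/
theorem pf_AB : T_AB := by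
  refine ⟨fun x y => mem_Fs, tm_Fs, ?_⟩
  intro M k x y hx hy hf
  have h : Ctbl M y := by
    refine fin_ind (P := fun z => Ctbl M z) y hf (Or.inl rfl) fun a ha z hz hc => ?_
    rw [insert_eqU]
    exact ctbl_union k (ctbl_sing k (k.trans x hx a (hy ha))) hc
  exact ⟨ctbl_mem k h, h⟩

end SE
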