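import Pool.Agent.H58.SE.AB

/-! # MP_eaeaf5_lc, AD: countable unions -/

set_option linter.unusedVariables false

open Ordinal Order Set
open scoped ZFSet

namespace SE

open SF CAA H58 Pool.Agent.H89.CA.QE

/-- AD -/
theorem pf_AD : T_AD := by
  intro M k S hS hx
  obtain ⟨hC, -⟩ := C0_mem k.toZFm
  exact (ctbl_iff k.toZFm).2 (pf_DG M k C0 hC gd_C0 S (ctbl_mem k.toZFm hS)
    ((ctbl_iff k.toZFm).1 hS) fun x h => (ctbl_iff k.toZFm).1 (hx x h))

end SE
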